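import Mathlib

/-!
# Objective gap of Douglas-Rachford splitting: the case `N = 1`, with its exact stepsize range

`f` is convex with `L`-Lipschitz gradient, `g` is convex, both are real-valued on `ℝⁿ`.  The bound
of the conjecture for `N = 1`, that is `F(y¹) - F(x*) ≤ ‖w¹ - w*‖² / (4γ)`, holds for all such
`f, g` if and only if `γ ≤ (2√2 - 1)/L`.  For these `γ` and all `0 ≤ λ ≤ 2` the same bound holds at
every step.
-/

set_option autoImplicit false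

namespace Pool.Agent.Results.MP_675b5c_an.SharpFirstStep

open scoped RealInnerProductSpace

/-- `x` is a minimiser of `u ↦ h u + ‖u - z‖² / (2 γ)`, that is, `x = prox_{γ h}(z)`. -/
def IsProx {n : ℕ} (γ : ℝ) (h : EuclideanSpace ℝ (Fin n) → ℝ)
    (z x : EuclideanSpace ℝ (Fin n)) : Prop :=
  ∀ u, h x + ‖x - z‖ ^ 2 / (2 * γ) ≤ h u + ‖u - z‖ ^ 2 / (2 * γ)

/-- `f` is convex and differentiable with `L`-Lipschitz gradient. -/
structure Smooth {n : ℕ} (L : ℝ) (f : EuclideanSpace ℝ (Fin n) → ℝ) : Prop where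
  conv : ConvexOn ℝ Set.univ f
  diff : Differentiable ℝ f
  lip : ∀ x y, ‖gradient f x - gradient f y‖ ≤ L * ‖x - y‖

/-- A run of relaxed Douglas-Rachford splitting (`k = 0, 1, 2, …`). -/
structure Run {n : ℕ} (γ lam : ℝ) (f g : EuclideanSpace ℝ (Fin n) → ℝ)
    (w x y : ℕ → EuclideanSpace ℝ (Fin n)) : Prop where
  px : ∀ k, IsProx γ f (w k) (x k)
  py : ∀ k, IsProx γ g ((2 : ℝ) • x k - w k) (y k)
  step : ∀ k, w (k + 1) = w k + lam • (y k - x k)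

variable {n : ℕ}


theorem prox_sub {γ : ℝ} (hγ : 0 < γ) {h : EuclideanSpace ℝ (Fin n) → ℝ}
    (hc : ConvexOn ℝ Set.univ h) {z x : EuclideanSpace ℝ (Fin n)}
    (hx : IsProx γ h z x) (u : EuclideanSpace ℝ (Fin n)) :
    γ * h x + ⟪z - x, u - x⟫ ≤ γ * h u := by
  have key : ∀ s : ℝ, 0 < s → s ≤ 1 →
      0 ≤ 2 * γ * (h u - h x) - 2 * ⟪z - x, u - x⟫ + s * ‖u - x‖ ^ 2 := by
    intro s hs hs1
    have h1 := hx ((1 - s) • x + s • u)
    have h2 := hc.2 (Set.mem_univ x) (Set.mem_univ u) (by linarith : 0 ≤ 1 - s) hs.le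
      (by ring)
    have e : (1 - s) • x + s • u - z = (x - z) + s • (u - x) := by
      simp only [smul_sub, sub_smul, one_smul]; abel
    have e2 : ‖(x - z) + s • (u - x)‖ ^ 2 =
        ‖x - z‖ ^ 2 + 2 * (s * ⟪x - z, u - x⟫) + s ^ 2 * ‖u - x‖ ^ 2 := by
      rw [norm_add_sq_real, inner_smul_right, norm_smul, mul_pow, Real.norm_eq_abs, sq_abs]
    rw [e, e2] at h1
    simp only [smul_eq_mul] at h2
    have e3 : ⟪x - z, u - x⟫ = - ⟪z - x, u - x⟫ := by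
      rw [← inner_neg_left]; congr 1; abel
    rw [e3] at h1
    have h3 : 0 ≤ s * (h u - h x) +
        (-2 * (s * ⟪z - x, u - x⟫) + s ^ 2 * ‖u - x‖ ^ 2) / (2 * γ) := by
      have : (‖x - z‖ ^ 2 + 2 * (s * -⟪z - x, u - x⟫) + s ^ 2 * ‖u - x‖ ^ 2) / (2 * γ) =
        ‖x - z‖ ^ 2 / (2 * γ) +
          (-2 * (s * ⟪z - x, u - x⟫) + s ^ 2 * ‖u - x‖ ^ 2) / (2 * γ) := by ring
      rw [this] at h1
      linarith
    have h4 : 0 ≤ (s * (h u - h x) +
        (-2 * (s * ⟪z - x, u - x⟫) + s ^ 2 * ‖u - x‖ ^ 2) / (2 * γ)) * (2 * γ) / s := by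
      positivity
    have h5 : (s * (h u - h x) +
        (-2 * (s * ⟪z - x, u - x⟫) + s ^ 2 * ‖u - x‖ ^ 2) / (2 * γ)) * (2 * γ) / s =
        2 * γ * (h u - h x) - 2 * ⟪z - x, u - x⟫ + s * ‖u - x‖ ^ 2 := by
      field_simp
      ring
    rw [h5] at h4
    exact h4
  have h0 : 0 ≤ 2 * γ * (h u - h x) - 2 * ⟪z - x, u - x⟫ := by
    by_contra hneg
    push Not at hneg
    set A := 2 * γ * (h u - h x) - 2 * ⟪z - x, u - x⟫ with hA
    set B := ‖u - x‖ ^ 2 with hB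
    have hB0 : 0 ≤ B := by positivity
    have h1 := key (min 1 (-A / (2 * (B + 1)))) (lt_min one_pos (by
      apply div_pos <;> linarith)) (min_le_left _ _)
    have h2 : min 1 (-A / (2 * (B + 1))) * B ≤ -A / (2 * (B + 1)) * B :=
      mul_le_mul_of_nonneg_right (min_le_right _ _) hB0
    have h3 : -A / (2 * (B + 1)) * B ≤ -A / 2 := by
      rw [div_mul_eq_mul_div, div_le_div_iff₀ (by positivity) (by norm_num)]
      nlinarith
    linarith
  linarith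

theorem grad_eq {f : EuclideanSpace ℝ (Fin n) → ℝ} (hd : Differentiable ℝ f)
    {x p : EuclideanSpace ℝ (Fin n)} (h : ∀ u, f x + ⟪p, u - x⟫ ≤ f u) : gradient f x = p := by
  have h1 : HasGradientAt f (gradient f x) x := (hd x).hasGradientAt
  have h2 : HasFDerivAt (fun u => f u - ⟪p, u⟫)
      (InnerProductSpace.toDual ℝ (EuclideanSpace ℝ (Fin n)) (gradient f x) -
        innerSL ℝ p) x := by
    exact h1.hasFDerivAt.sub ((innerSL ℝ p).hasFDerivAt)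
  have h3 : IsLocalMin (fun u => f u - ⟪p, u⟫) x := by
    refine Filter.Eventually.of_forall fun u => ?_
    have := h u
    rw [inner_sub_right] at this
    show f x - ⟪p, x⟫ ≤ f u - ⟪p, u⟫
    linarith
  have h4 := h3.hasFDerivAt_eq_zero h2
  refine ext_inner_right ℝ fun v => ?_
  have h5 := congrArg (fun T => T v) h4
  simp at h5
  have h6 : ⟪gradient f x, v⟫ = fderiv ℝ f x v := by simp
  linarith

theorem subgrad {L : ℝ} {f : EuclideanSpace ℝ (Fin n) → ℝ} (hf : Smooth L f)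
    (x u : EuclideanSpace ℝ (Fin n)) : f x + ⟪gradient f x, u - x⟫ ≤ f u := by
  have hl : HasDerivAt (fun s : ℝ => x + s • (u - x)) (u - x) 0 := by
    simpa using ((hasDerivAt_id (0 : ℝ)).smul_const (u - x)).const_add x
  have h1 : HasDerivAt (fun s : ℝ => f (x + s • (u - x))) ⟪gradient f x, u - x⟫ 0 := by
    have h2 : HasGradientAt f (gradient f x) (x + (0 : ℝ) • (u - x)) := by
      simpa using (hf.diff x).hasGradientAt
    simpa [Function.comp_def] using h2.hasFDerivAt.comp_hasDerivAt (0 : ℝ) hl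
  have hc : ConvexOn ℝ Set.univ (fun s : ℝ => f (x + s • (u - x))) := by
    refine ⟨convex_univ, fun s _ t _ a b ha hb hab => ?_⟩
    have h3 := hf.conv.2 (Set.mem_univ (x + s • (u - x))) (Set.mem_univ (x + t • (u - x)))
      ha hb hab
    have e : x + (a • s + b • t) • (u - x) = a • (x + s • (u - x)) + b • (x + t • (u - x)) := by
      have : x = a • x + b • x := by rw [← add_smul, hab, one_smul]
      calc x + (a • s + b • t) • (u - x) = (a • x + b • x) + (a • s + b • t) • (u - x) := by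
            rw [← this]
        _ = _ := by simp only [smul_add, add_smul, smul_assoc]; abel
    show f (x + (a • s + b • t) • (u - x)) ≤ _
    rw [e]
    exact h3
  have h4 := hc.le_slope_of_hasDerivAt (Set.mem_univ 0) (Set.mem_univ 1) one_pos h1
  rw [slope_def_field] at h4
  simp only [zero_smul, one_smul, add_zero, sub_zero, div_one, add_sub_cancel] at h4
  linarith

theorem descent {L : ℝ} {f : EuclideanSpace ℝ (Fin n) → ℝ} (hf : Smooth L f)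
    (x d : EuclideanSpace ℝ (Fin n)) :
    f (x + d) ≤ f x + ⟪gradient f x, d⟫ + L / 2 * ‖d‖ ^ 2 := by
  have hl : ∀ s : ℝ, HasDerivAt (fun s : ℝ => x + s • d) d s := by
    intro s
    simpa using ((hasDerivAt_id s).smul_const d).const_add x
  have h1 : ∀ s : ℝ, HasDerivAt (fun s : ℝ => f (x + s • d) - s * ⟪gradient f x, d⟫ -
      L / 2 * s ^ 2 * ‖d‖ ^ 2) (⟪gradient f (x + s • d), d⟫ - ⟪gradient f x, d⟫ -
      L * s * ‖d‖ ^ 2) s := by
    intro s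
    have h2 : HasDerivAt (fun s : ℝ => f (x + s • d)) ⟪gradient f (x + s • d), d⟫ s := by
      simpa [Function.comp_def] using
        (hf.diff (x + s • d)).hasGradientAt.hasFDerivAt.comp_hasDerivAt s (hl s)
    have h3 : HasDerivAt (fun s : ℝ => s * ⟪gradient f x, d⟫) ⟪gradient f x, d⟫ s := by
      simpa using (hasDerivAt_id s).mul_const ⟪gradient f x, d⟫
    have h4 : HasDerivAt (fun s : ℝ => L / 2 * s ^ 2 * ‖d‖ ^ 2) (L * s * ‖d‖ ^ 2) s := by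
      have := (((hasDerivAt_pow 2 s)).const_mul (L / 2)).mul_const (‖d‖ ^ 2)
      refine this.congr_deriv ?_
      norm_num
      left
      ring
    exact (h2.sub h3).sub h4
  have hanti : AntitoneOn (fun s : ℝ => f (x + s • d) - s * ⟪gradient f x, d⟫ -
      L / 2 * s ^ 2 * ‖d‖ ^ 2) (Set.Icc 0 1) := by
    refine antitoneOn_of_deriv_nonpos (convex_Icc 0 1)
      (fun s _ => (h1 s).continuousAt.continuousWithinAt)
      (fun s _ => (h1 s).differentiableAt.differentiableWithinAt) ?_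
    intro s hs
    rw [interior_Icc] at hs
    rw [(h1 s).deriv, ← inner_sub_left]
    have h5 := real_inner_le_norm (gradient f (x + s • d) - gradient f x) d
    have h6 := hf.lip (x + s • d) x
    have h7 : ‖x + s • d - x‖ = s * ‖d‖ := by
      rw [add_sub_cancel_left, norm_smul, Real.norm_eq_abs, abs_of_pos hs.1]
    rw [h7] at h6
    have h8 := mul_le_mul_of_nonneg_right h6 (norm_nonneg d)
    nlinarith
  have h9 := hanti (Set.left_mem_Icc.2 zero_le_one) (Set.right_mem_Icc.2 zero_le_one)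
    zero_le_one
  simp only [zero_smul, one_smul, add_zero, zero_mul, one_mul, one_pow, sub_zero, mul_one,
    ne_eq, OfNat.ofNat_ne_zero, not_false_eq_true, zero_pow, mul_zero] at h9
  linarith

theorem interp {L : ℝ} (hL : 0 < L) {f : EuclideanSpace ℝ (Fin n) → ℝ} (hf : Smooth L f)
    (x y : EuclideanSpace ℝ (Fin n)) :
    f y + ⟪gradient f y, x - y⟫ + ‖gradient f x - gradient f y‖ ^ 2 / (2 * L) ≤ f x := by
  set p := gradient f x
  set r := gradient f y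
  have h1 := subgrad hf y (x + (-(1 / L)) • (p - r))
  have h2 := descent hf x ((-(1 / L)) • (p - r))
  have e1 : x + (-(1 / L)) • (p - r) - y = (x - y) + (-(1 / L)) • (p - r) := by abel
  rw [e1, inner_add_right, inner_smul_right] at h1
  rw [inner_smul_right, norm_smul, mul_pow, Real.norm_eq_abs, sq_abs] at h2
  have e2 : ‖p - r‖ ^ 2 = ⟪p, p - r⟫ - ⟪r, p - r⟫ := by
    rw [← inner_sub_left, real_inner_self_eq_norm_sq]
  have h3 : f y + (⟪r, x - y⟫ + -(1 / L) * ⟪r, p - r⟫) ≤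
      f x + -(1 / L) * ⟪p, p - r⟫ + L / 2 * ((-(1 / L)) ^ 2 * ‖p - r‖ ^ 2) := by
    have := h1.trans h2
    linarith
  have e3 : L / 2 * ((-(1 / L)) ^ 2 * ‖p - r‖ ^ 2) = ‖p - r‖ ^ 2 / (2 * L) := by
    field_simp
  have e4 : -(1 / L) * ⟪r, p - r⟫ = -(1 / L) * ⟪p, p - r⟫ + (1 / L) * ‖p - r‖ ^ 2 := by
    rw [e2]; ring
  have e5 : (1 / L) * ‖p - r‖ ^ 2 = 2 * (‖p - r‖ ^ 2 / (2 * L)) := by
    field_simp
  rw [e3, e4, e5] at h3
  linarith

theorem quad {t : ℝ} (ht : t ^ 2 + 2 * t ≤ 7) (P R : EuclideanSpace ℝ (Fin n)) :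
    0 ≤ 4 * ‖P‖ ^ 2 + (2 - t) * ‖R‖ ^ 2 + 2 * (t - 1) * ⟪P, R⟫ := by
  have h1 : ‖(2 : ℝ) • P + ((t - 1) / 2) • R‖ ^ 2 =
      4 * ‖P‖ ^ 2 + 2 * (t - 1) * ⟪P, R⟫ + ((t - 1) / 2) ^ 2 * ‖R‖ ^ 2 := by
    rw [norm_add_sq_real, inner_smul_left, inner_smul_right, norm_smul, norm_smul, mul_pow,
      mul_pow, Real.norm_eq_abs, Real.norm_eq_abs, sq_abs, sq_abs]
    simp
    ring
  have h2 : 0 ≤ ‖(2 : ℝ) • P + ((t - 1) / 2) • R‖ ^ 2 := by positivity
  nlinarith [mul_nonneg (by linarith : 0 ≤ 7 - (t ^ 2 + 2 * t)) (sq_nonneg ‖R‖)]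

theorem gap {L γ : ℝ} (hL : 0 < L) (hγ : 0 < γ) (ht : (γ * L) ^ 2 + 2 * (γ * L) ≤ 7)
    {f g : EuclideanSpace ℝ (Fin n) → ℝ} (hf : Smooth L f) (hg : ConvexOn ℝ Set.univ g)
    {w x y ws xs : EuclideanSpace ℝ (Fin n)} (hx : IsProx γ f w x)
    (hy : IsProx γ g ((2 : ℝ) • x - w) y) (hxs : IsProx γ f ws xs) :
    (f y + g y) - (f xs + g xs) ≤ ‖w - ws‖ ^ 2 / (4 * γ) := by
  -- gradients
  have hp : γ • gradient f x = w - x := by
    have : gradient f x = γ⁻¹ • (w - x) := by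
      refine grad_eq hf.diff fun u => ?_
      have h := prox_sub hγ hf.conv hx u
      rw [inner_smul_left]
      simp only [conj_trivial]
      have : γ * (f x + γ⁻¹ * ⟪w - x, u - x⟫) ≤ γ * f u := by
        rw [mul_add, ← mul_assoc, mul_inv_cancel₀ hγ.ne', one_mul]; exact h
      exact le_of_mul_le_mul_left this hγ
    rw [this, smul_smul, mul_inv_cancel₀ hγ.ne', one_smul]
  have hps : γ • gradient f xs = ws - xs := by
    have : gradient f xs = γ⁻¹ • (ws - xs) := by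
      refine grad_eq hf.diff fun u => ?_
      have h := prox_sub hγ hf.conv hxs u
      rw [inner_smul_left]
      simp only [conj_trivial]
      have : γ * (f xs + γ⁻¹ * ⟪ws - xs, u - xs⟫) ≤ γ * f u := by
        rw [mul_add, ← mul_assoc, mul_inv_cancel₀ hγ.ne', one_mul]; exact h
      exact le_of_mul_le_mul_left this hγ
    rw [this, smul_smul, mul_inv_cancel₀ hγ.ne', one_smul]
  have hg1 := prox_sub hγ hg hy xs
  have I1 := interp hL hf x y
  have I2 := interp hL hf xs y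
  have I3 := interp hL hf xs x
  have I4 := interp hL hf x xs
  set p := gradient f x with hpdef
  set ps := gradient f xs with hpsdef
  set r := gradient f y with hrdef
  obtain ⟨X, hX⟩ : ∃ X, X = x - xs := ⟨_, rfl⟩
  obtain ⟨Y, hY⟩ : ∃ Y, Y = y - xs := ⟨_, rfl⟩
  obtain ⟨P, hP⟩ : ∃ P, P = p - ps := ⟨_, rfl⟩
  obtain ⟨R, hR⟩ : ∃ R, R = r - ps := ⟨_, rfl⟩
  have ex : x = X + xs := by rw [hX]; abel
  have ey : y = Y + xs := by rw [hY]; abel
  have ep : p = P + ps := by rw [hP]; abel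
  have er : r = R + ps := by rw [hR]; abel
  have ew : w - ws = X + γ • P := by
    rw [hP, smul_sub, hp, hps, hX]; abel
  have ez : (2 : ℝ) • x - w - y = X - Y - γ • p := by
    rw [hp, hX, hY, two_smul]; abel
  rw [ez] at hg1
  have q1 : x - y = X - Y := by rw [hX, hY]; abel
  have q2 : xs - y = -Y := by rw [hY]; abel
  have q3 : xs - x = -X := by rw [hX]; abel
  have q4 : p - r = P - R := by rw [hP, hR]; abel
  have q5 : ps - r = -R := by rw [hR]; abel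
  have q6 : ps - p = -P := by rw [hP]; abel
  rw [q1, q4, er] at I1
  rw [q2, q5, er, norm_neg] at I2
  rw [q3, q6, ep, norm_neg] at I3
  rw [← hX, ← hP] at I4
  rw [q2, ep] at hg1
  rw [ew]
  have hq := quad ht P R
  have hs : 0 ≤ ‖X - (2 : ℝ) • Y - γ • (P - R)‖ ^ 2 := by positivity
  have e0 : ‖X - (2 : ℝ) • Y - γ • (P - R)‖ ^ 2 = ‖X‖ ^ 2 + 4 * ‖Y‖ ^ 2 + γ ^ 2 * ‖P‖ ^ 2 +
      γ ^ 2 * ‖R‖ ^ 2 - 4 * ⟪X, Y⟫ - 2 * γ * ⟪X, P⟫ + 2 * γ * ⟪X, R⟫ + 4 * γ * ⟪Y, P⟫ -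
      4 * γ * ⟪Y, R⟫ - 2 * γ ^ 2 * ⟪P, R⟫ := by
    simp only [← real_inner_self_eq_norm_sq, inner_sub_left, inner_sub_right, inner_smul_left,
      inner_smul_right, conj_trivial]
    rw [real_inner_comm X Y, real_inner_comm X P, real_inner_comm X R, real_inner_comm Y P,
      real_inner_comm Y R, real_inner_comm P R]
    ring
  have e1 : ‖X + γ • P‖ ^ 2 = ‖X‖ ^ 2 + 2 * γ * ⟪X, P⟫ + γ ^ 2 * ‖P‖ ^ 2 := by
    simp only [← real_inner_self_eq_norm_sq, inner_add_left, inner_add_right, inner_smul_left,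
      inner_smul_right, conj_trivial]
    rw [real_inner_comm X P]
    ring
  have e2 : ‖P - R‖ ^ 2 = ‖P‖ ^ 2 - 2 * ⟪P, R⟫ + ‖R‖ ^ 2 := by
    rw [norm_sub_sq_real]
  have e3 : ⟪X - Y - γ • (P + ps), -Y⟫ = -⟪X, Y⟫ + ‖Y‖ ^ 2 + γ * ⟪Y, P⟫ + γ * ⟪ps, Y⟫ := by
    simp only [← real_inner_self_eq_norm_sq, inner_sub_left, inner_neg_right, inner_smul_left,
      inner_add_left, conj_trivial]
    rw [real_inner_comm Y P]
    ring
  have f1 : ⟪R + ps, X - Y⟫ = ⟪X, R⟫ - ⟪Y, R⟫ + ⟪ps, X⟫ - ⟪ps, Y⟫ := by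
    simp only [inner_sub_right, inner_add_left]
    rw [real_inner_comm X R, real_inner_comm Y R]
    ring
  have f2 : ⟪R + ps, -Y⟫ = -⟪Y, R⟫ - ⟪ps, Y⟫ := by
    simp only [inner_neg_right, inner_add_left]
    rw [real_inner_comm Y R]
    ring
  have f3 : ⟪P + ps, -X⟫ = -⟪X, P⟫ - ⟪ps, X⟫ := by
    simp only [inner_neg_right, inner_add_left]
    rw [real_inner_comm X P]
    ring
  rw [f1, e2] at I1
  rw [f2] at I2
  rw [f3] at I3
  rw [e3] at hg1
  rw [e0] at hs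
  rw [e1, le_div_iff₀ (by positivity)]
  have J : (2 * L) * (f y - f xs) ≤ (2 * L) * (⟪Y, R⟫ - ⟪X, R⟫ / 2 + ⟪X, P⟫ + ⟪ps, Y⟫) -
      (2 * ‖P‖ ^ 2 + ‖R‖ ^ 2 - ⟪P, R⟫) := by
    have k1 := mul_le_mul_of_nonneg_left I1 (by positivity : 0 ≤ 2 * L)
    have k2 := mul_le_mul_of_nonneg_left I2 (by positivity : 0 ≤ 2 * L)
    have k3 := mul_le_mul_of_nonneg_left I3 (by positivity : 0 ≤ 2 * L)
    have k4 := mul_le_mul_of_nonneg_left I4 (by positivity : 0 ≤ 2 * L)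
    simp only [mul_add] at k1 k2 k3 k4
    rw [mul_div_cancel₀ _ (by positivity : 2 * L ≠ 0)] at k1 k2 k3 k4
    nlinarith
  have m1 := mul_le_mul_of_nonneg_left J (by positivity : 0 ≤ 2 * γ)
  have m2 := mul_le_mul_of_nonneg_left hg1 (by positivity : 0 ≤ 4 * L)
  have m3 := mul_nonneg hL.le hs
  have m4 := mul_nonneg hγ.le hq
  refine le_of_mul_le_mul_left ?_ hL
  linarith

/-- the steps do not move away from a fixed point -/
theorem fejer {lam γ : ℝ} (hγ : 0 < γ) (hl0 : 0 ≤ lam) (hl2 : lam ≤ 2)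
    {f g : EuclideanSpace ℝ (Fin n) → ℝ} (hf : ConvexOn ℝ Set.univ f)
    (hg : ConvexOn ℝ Set.univ g)
    {w x y ws xs : EuclideanSpace ℝ (Fin n)} (hx : IsProx γ f w x)
    (hy : IsProx γ g ((2 : ℝ) • x - w) y) (hxs : IsProx γ f ws xs)
    (hys : IsProx γ g ((2 : ℝ) • xs - ws) xs) :
    ‖w + lam • (y - x) - ws‖ ^ 2 ≤ ‖w - ws‖ ^ 2 := by
  have a1 := prox_sub hγ hf hx xs
  have a2 := prox_sub hγ hf hxs x
  have a3 := prox_sub hγ hg hy xs
  have a4 := prox_sub hγ hg hys y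
  obtain ⟨A, hA⟩ : ∃ A, A = w - ws := ⟨_, rfl⟩
  obtain ⟨B, hB⟩ : ∃ B, B = x - xs := ⟨_, rfl⟩
  obtain ⟨C, hC⟩ : ∃ C, C = y - xs := ⟨_, rfl⟩
  have b1 : xs - x = -B := by rw [hB]; abel
  have b2 : xs - y = -C := by rw [hC]; abel
  have b3 : w - x = (A - B) + (ws - xs) := by rw [hA, hB]; abel
  have b4 : (2 : ℝ) • x - w - y = ((2 : ℝ) • B - A - C) + ((2 : ℝ) • xs - ws - xs) := by
    rw [hA, hB, hC, two_smul, two_smul, two_smul]; abel
  rw [b1, b3] at a1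
  rw [← hB] at a2
  rw [b2, b4] at a3
  rw [← hC] at a4
  have c1 : 0 ≤ ⟪A - B, B⟫ := by
    have h : ⟪A - B + (ws - xs), -B⟫ = - ⟪A - B, B⟫ - ⟪ws - xs, B⟫ := by
      rw [inner_neg_right, inner_add_left]; ring
    rw [h] at a1
    linarith
  have c2 : 0 ≤ ⟪(2 : ℝ) • B - A - C, C⟫ := by
    have h : ⟪(2 : ℝ) • B - A - C + ((2 : ℝ) • xs - ws - xs), -C⟫ =
        - ⟪(2 : ℝ) • B - A - C, C⟫ - ⟪(2 : ℝ) • xs - ws - xs, C⟫ := by
      rw [inner_neg_right, inner_add_left]; ring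
    rw [h] at a3
    linarith
  have e : w + lam • (y - x) - ws = A + lam • (C - B) := by
    have : y - x = C - B := by rw [hC, hB]; abel
    rw [this, hA]; abel
  rw [e]
  have e1 : ‖A + lam • (C - B)‖ ^ 2 = ‖A‖ ^ 2 + 2 * lam * (⟪A, C⟫ - ⟪A, B⟫) +
      lam ^ 2 * (‖C‖ ^ 2 - 2 * ⟪B, C⟫ + ‖B‖ ^ 2) := by
    rw [norm_add_sq_real, inner_smul_right, inner_sub_right, norm_smul, mul_pow,
      Real.norm_eq_abs, sq_abs, norm_sub_sq_real, real_inner_comm C B]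
    ring
  have e2 : ⟪A - B, B⟫ = ⟪A, B⟫ - ‖B‖ ^ 2 := by
    rw [inner_sub_left, real_inner_self_eq_norm_sq]
  have e3 : ⟪(2 : ℝ) • B - A - C, C⟫ = 2 * ⟪B, C⟫ - ⟪A, C⟫ - ‖C‖ ^ 2 := by
    rw [inner_sub_left, inner_sub_left, inner_smul_left, real_inner_self_eq_norm_sq]
    simp
  have e4 : 0 ≤ ‖C‖ ^ 2 - 2 * ⟪B, C⟫ + ‖B‖ ^ 2 := by
    have : ‖C - B‖ ^ 2 = ‖C‖ ^ 2 - 2 * ⟪B, C⟫ + ‖B‖ ^ 2 := by
      rw [norm_sub_sq_real, real_inner_comm C B]
    rw [← this]; positivity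
  rw [e2] at c1
  rw [e3] at c2
  rw [e1, ← hA]
  nlinarith [mul_nonneg hl0 (add_nonneg c1 c2), mul_nonneg (mul_nonneg hl0 (by linarith :
    0 ≤ 2 - lam)) e4]

/-- For every stepsize `γ ≤ (2√2 - 1)/L` and every relaxation parameter `0 ≤ λ ≤ 2`, all
objective gaps of relaxed Douglas-Rachford splitting are at most `‖w¹ - w*‖²/(4γ)`. -/
theorem all_steps {L γ lam : ℝ} (hL : 0 < L) (hγ : 0 < γ) (ht : γ ≤ (2 * √2 - 1) / L)
    (hl0 : 0 ≤ lam) (hl2 : lam ≤ 2)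
    {f g : EuclideanSpace ℝ (Fin n) → ℝ} (hf : Smooth L f) (hg : ConvexOn ℝ Set.univ g)
    {ws xs : EuclideanSpace ℝ (Fin n)} {w x y : ℕ → EuclideanSpace ℝ (Fin n)}
    (hr : Run γ lam f g w x y) (hxs : IsProx γ f ws xs)
    (hys : IsProx γ g ((2 : ℝ) • xs - ws) xs) (k : ℕ) :
    (f (y k) + g (y k)) - (f xs + g xs) ≤ ‖w 0 - ws‖ ^ 2 / (4 * γ) := by
  have h2 : √2 ^ 2 = 2 := Real.sq_sqrt (by norm_num)
  have h3 : γ * L ≤ 2 * √2 - 1 := (le_div_iff₀ hL).1 ht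
  have h4 : 0 < γ * L := mul_pos hγ hL
  have h5 : (γ * L) ^ 2 + 2 * (γ * L) ≤ 7 := by
    have : γ * L + 1 ≤ 2 * √2 := by linarith
    nlinarith [Real.sqrt_nonneg 2]
  have h6 : ∀ k, ‖w k - ws‖ ^ 2 ≤ ‖w 0 - ws‖ ^ 2 := by
    intro k
    induction k with
    | zero => exact le_rfl
    | succ k ih =>
      rw [hr.step k]
      exact (fejer hγ hl0 hl2 hf.conv hg (hr.px k) (hr.py k) hxs hys).trans ih
  exact (gap hL hγ h5 hf hg (hr.px k) (hr.py k) hxs).trans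
    (div_le_div_of_nonneg_right (h6 k) (by positivity))

theorem exists_Y {t : ℝ} (h1 : 1 < t) (ht : 7 < t ^ 2 + 2 * t) :
    ∃ Y : ℝ, Y < 0 ∧ (1 + t) ^ 2 / 4 < (t / 2 - 1) * Y ^ 2 + (1 - t) * Y := by
  by_cases h2 : t < 2
  · refine ⟨(1 - t) / (2 - t), div_neg_of_neg_of_pos (by linarith) (by linarith), ?_⟩
    have h3 : (t / 2 - 1) * ((1 - t) / (2 - t)) ^ 2 + (1 - t) * ((1 - t) / (2 - t)) =
        (1 - t) ^ 2 / (2 * (2 - t)) := by
      have : 2 - t ≠ 0 := by linarith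
      field_simp
      ring
    rw [h3, div_lt_div_iff₀ (by norm_num) (by linarith)]
    nlinarith [mul_pos (by linarith : 0 < t) (by linarith : 0 < t ^ 2 + 2 * t - 7)]
  · push Not at h2
    refine ⟨-(1 + t) ^ 2, by nlinarith, ?_⟩
    have h3 : 0 ≤ (t / 2 - 1) * (-(1 + t) ^ 2) ^ 2 :=
      mul_nonneg (by linarith) (sq_nonneg _)
    have h4 : (1 - t) * -(1 + t) ^ 2 = (t - 1) * (1 + t) ^ 2 := by ring
    rw [h4]
    have h5 : 0 < (1 + t) ^ 2 := by positivity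
    nlinarith

theorem smooth_sq {L : ℝ} (hL : 0 < L) :
    Smooth L (fun u : EuclideanSpace ℝ (Fin 2) => L / 2 * (u 0) ^ 2) := by
  have hgrad : ∀ x : EuclideanSpace ℝ (Fin 2),
      HasGradientAt (fun u : EuclideanSpace ℝ (Fin 2) => L / 2 * (u 0) ^ 2)
        (EuclideanSpace.single 0 (L * x 0)) x := by
    intro x
    rw [hasGradientAt_iff_hasFDerivAt]
    have h := (((EuclideanSpace.proj (𝕜 := ℝ) (0 : Fin 2)).hasFDerivAt (x := x)).pow 2).const_mul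
      (L / 2)
    refine h.congr_fderiv ?_
    ext v
    have h6 : ⟪(EuclideanSpace.single 0 (L * x 0) : EuclideanSpace ℝ (Fin 2)), v⟫ =
        L * x 0 * v 0 := by
      rw [EuclideanSpace.inner_single_left]; simp
    simp
    rw [h6]
    ring
  refine ⟨⟨convex_univ, fun x _ y _ a b ha hb hab => ?_⟩, fun x => (hgrad x).differentiableAt,
    fun x y => ?_⟩
  · have hb' : b = 1 - a := by linarith
    subst hb'
    simp only [PiLp.add_apply, PiLp.smul_apply, smul_eq_mul]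
    nlinarith [mul_nonneg (mul_nonneg hL.le (mul_nonneg ha hb)) (sq_nonneg (x 0 - y 0))]
  · rw [(hgrad x).gradient, (hgrad y).gradient]
    have e : (EuclideanSpace.single 0 (L * x 0) : EuclideanSpace ℝ (Fin 2)) -
        EuclideanSpace.single 0 (L * y 0) = EuclideanSpace.single 0 (L * (x 0 - y 0)) := by
      ext i
      by_cases hi : i = 0
      · subst hi; simp; ring
      · simp [hi]
    rw [e, PiLp.norm_single, norm_mul, Real.norm_eq_abs, abs_of_pos hL]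
    exact mul_le_mul_of_nonneg_left (PiLp.norm_apply_le (x - y) 0) hL.le

theorem convex_max (a b : ℝ) :
    ConvexOn ℝ Set.univ (fun u : EuclideanSpace ℝ (Fin 2) => max 0 (a * u 0 + b * u 1)) := by
  refine ⟨convex_univ, fun x _ y _ s t hs ht hst => ?_⟩
  simp only [PiLp.add_apply, PiLp.smul_apply, smul_eq_mul]
  have h1 := mul_le_mul_of_nonneg_left (le_max_right 0 (a * x 0 + b * x 1)) hs
  have h2 := mul_le_mul_of_nonneg_left (le_max_right 0 (a * y 0 + b * y 1)) ht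
  have h3 := mul_nonneg hs (le_max_left 0 (a * x 0 + b * x 1))
  have h4 := mul_nonneg ht (le_max_left 0 (a * y 0 + b * y 1))
  refine max_le (by linarith) (by linarith)

theorem nsq (u : EuclideanSpace ℝ (Fin 2)) : ‖u‖ ^ 2 = (u 0) ^ 2 + (u 1) ^ 2 := by
  simp [EuclideanSpace.norm_sq_eq, Fin.sum_univ_two]

theorem sharp {L γ : ℝ} (hL : 0 < L) (ht : (2 * √2 - 1) / L < γ) :
    ∃ (f g : EuclideanSpace ℝ (Fin 2) → ℝ) (w x y : EuclideanSpace ℝ (Fin 2)),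
      Smooth L f ∧ ConvexOn ℝ Set.univ g ∧ IsProx γ f w x ∧
      IsProx γ g ((2 : ℝ) • x - w) y ∧ IsProx γ f 0 0 ∧ IsProx γ g ((2 : ℝ) • 0 - 0) 0 ∧
      ‖w - 0‖ ^ 2 / (4 * γ) < (f y + g y) - (f 0 + g 0) := by
  have hs2 : √2 ^ 2 = 2 := Real.sq_sqrt (by norm_num)
  have hs1 : 1 < √2 := by
    rw [Real.lt_sqrt (by norm_num)]; norm_num
  have hγ : 0 < γ := lt_of_le_of_lt (div_nonneg (by linarith) hL.le) ht
  have h3 : 2 * √2 - 1 < γ * L := (div_lt_iff₀ hL).1 ht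
  obtain ⟨t, htt⟩ : ∃ t, t = γ * L := ⟨_, rfl⟩
  rw [← htt] at h3
  obtain ⟨Y, hY, hY2⟩ := exists_Y (t := t) (by linarith) (by nlinarith)
  have hLt : L = t / γ := by rw [htt]; field_simp
  have hq0 : 0 ≤ (1 - t - Y) / γ * Y + (-Y / γ) * (-Y) := by
    have : (1 - t - Y) / γ * Y + (-Y / γ) * (-Y) = ((1 - t) * Y) / γ := by ring
    rw [this]
    exact div_nonneg (by nlinarith) hγ.le
  refine ⟨fun u => L / 2 * (u 0) ^ 2,
    fun u => max 0 ((1 - t - Y) / γ * u 0 + (-Y / γ) * u 1), !₂[1 + t, -2 * Y], !₂[1, -2 * Y],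
    !₂[Y, -Y], smooth_sq hL, convex_max _ _, ?_, ?_, ?_, ?_, ?_⟩
  · intro u
    rw [nsq, nsq]
    show L / 2 * (1 : ℝ) ^ 2 + ((1 - (1 + t)) ^ 2 + (-2 * Y - -2 * Y) ^ 2) / (2 * γ) ≤
      L / 2 * (u 0) ^ 2 + ((u 0 - (1 + t)) ^ 2 + (u 1 - -2 * Y) ^ 2) / (2 * γ)
    have h : L / 2 * (u 0) ^ 2 + ((u 0 - (1 + t)) ^ 2 + (u 1 - -2 * Y) ^ 2) / (2 * γ) -
        (L / 2 * (1 : ℝ) ^ 2 + ((1 - (1 + t)) ^ 2 + (-2 * Y - -2 * Y) ^ 2) / (2 * γ)) =
        (t * (u 0 - 1) ^ 2 + (u 0 - 1) ^ 2 + (u 1 + 2 * Y) ^ 2) / (2 * γ) := by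
      rw [hLt]; field_simp; ring
    have h' : 0 ≤ (t * (u 0 - 1) ^ 2 + (u 0 - 1) ^ 2 + (u 1 + 2 * Y) ^ 2) / (2 * γ) := by
      have : 0 < t := by linarith
      positivity
    linarith
  · intro u
    rw [nsq, nsq]
    show max 0 ((1 - t - Y) / γ * Y + (-Y / γ) * (-Y)) +
        ((Y - (2 * 1 - (1 + t))) ^ 2 + (-Y - (2 * (-2 * Y) - (-2 * Y))) ^ 2) / (2 * γ) ≤
      max 0 ((1 - t - Y) / γ * u 0 + (-Y / γ) * u 1) +
        ((u 0 - (2 * 1 - (1 + t))) ^ 2 + (u 1 - (2 * (-2 * Y) - (-2 * Y))) ^ 2) / (2 * γ)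
    rw [max_eq_right hq0]
    have h1 := le_max_right 0 ((1 - t - Y) / γ * u 0 + (-Y / γ) * u 1)
    have h : ((1 - t - Y) / γ * u 0 + (-Y / γ) * u 1) +
        ((u 0 - (2 * 1 - (1 + t))) ^ 2 + (u 1 - (2 * (-2 * Y) - (-2 * Y))) ^ 2) / (2 * γ) -
        (((1 - t - Y) / γ * Y + (-Y / γ) * (-Y)) +
        ((Y - (2 * 1 - (1 + t))) ^ 2 + (-Y - (2 * (-2 * Y) - (-2 * Y))) ^ 2) / (2 * γ)) =
        ((u 0 - Y) ^ 2 + (u 1 + Y) ^ 2) / (2 * γ) := by
      field_simp; ring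
    have h' : 0 ≤ ((u 0 - Y) ^ 2 + (u 1 + Y) ^ 2) / (2 * γ) := by positivity
    linarith
  · intro u
    simp
    positivity
  · intro u
    simp
    positivity
  · rw [sub_zero, nsq]
    show ((1 + t) ^ 2 + (-2 * Y) ^ 2) / (4 * γ) <
      (L / 2 * Y ^ 2 + max 0 ((1 - t - Y) / γ * Y + (-Y / γ) * (-Y))) -
        (L / 2 * (0 : ℝ) ^ 2 + max 0 ((1 - t - Y) / γ * 0 + (-Y / γ) * 0))
    rw [max_eq_right hq0]
    have h : (L / 2 * Y ^ 2 + ((1 - t - Y) / γ * Y + (-Y / γ) * (-Y))) -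
        (L / 2 * (0 : ℝ) ^ 2 + max 0 ((1 - t - Y) / γ * 0 + (-Y / γ) * 0)) -
        ((1 + t) ^ 2 + (-2 * Y) ^ 2) / (4 * γ) =
        ((t / 2 - 1) * Y ^ 2 + (1 - t) * Y - (1 + t) ^ 2 / 4) / γ := by
      simp only [mul_zero, add_zero, max_self]
      rw [hLt]; field_simp; ring
    have h' : 0 < ((t / 2 - 1) * Y ^ 2 + (1 - t) * Y - (1 + t) ^ 2 / 4) / γ :=
      div_pos (by linarith) hγ
    linarith

theorem result :
    -- every step, for all stepsizes up to the threshold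
    (∀ (n : ℕ) (L γ lam : ℝ), 0 < L → 0 < γ → γ ≤ (2 * √2 - 1) / L → 0 ≤ lam → lam ≤ 2 →
      ∀ f g : EuclideanSpace ℝ (Fin n) → ℝ, Smooth L f → ConvexOn ℝ Set.univ g →
      ∀ (ws xs : EuclideanSpace ℝ (Fin n)) (w x y : ℕ → EuclideanSpace ℝ (Fin n)),
        IsProx γ f ws xs → IsProx γ g ((2 : ℝ) • xs - ws) xs → Run γ lam f g w x y →
        ∀ k, (f (y k) + g (y k)) - (f xs + g xs) ≤ ‖w 0 - ws‖ ^ 2 / (4 * γ)) ∧
    -- above the threshold the bound fails at the first step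
    (∀ L γ : ℝ, 0 < L → (2 * √2 - 1) / L < γ →
      ∃ (f g : EuclideanSpace ℝ (Fin 2) → ℝ) (ws xs w x y : EuclideanSpace ℝ (Fin 2)),
        Smooth L f ∧ ConvexOn ℝ Set.univ g ∧
        IsProx γ f ws xs ∧ IsProx γ g ((2 : ℝ) • xs - ws) xs ∧
        IsProx γ f w x ∧ IsProx γ g ((2 : ℝ) • x - w) y ∧
        ‖w - ws‖ ^ 2 / (4 * γ) < (f y + g y) - (f xs + g xs)) := by
  refine ⟨fun n L γ lam hL hγ ht hl0 hl2 f g hf hg ws xs w x y hxs hys hr k =>
    all_steps hL hγ ht hl0 hl2 hf hg hr hxs hys k, fun L γ hL ht => ?_⟩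
  obtain ⟨f, g, w, x, y, h1, h2, h3, h4, h5, h6, h7⟩ := sharp hL ht
  exact ⟨f, g, 0, 0, w, x, y, h1, h2, h5, h6, h3, h4, h7⟩

end Pool.Agent.Results.MP_675b5c_an.SharpFirstStep
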